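import Pool.Agent.Helper91.GU.StB

/-!
# Project GU, module B5: lemma U from the natural form of Suslin's theorem
-/

set_option autoImplicit false

namespace Pool.Agent.Helper58.GU

open Pool.Agent.Helper91.GU
open Polynomial

universe u

section basic

variable {A : Type u} [CommRing A] {B : Type u} [CommRing B] {r : ℕ}

abbrev Mt (A : Type u) (r : ℕ) := Matrix (Unit ⊕ Fin r) (Unit ⊕ Fin r) A

/-- first row `(1; 0)` -/
def F1 (M : Mt A r) : Prop := M (Sum.inl ()) = (1 : Mt A r) (Sum.inl ())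

/-- lower right block -/
def rho (M : Mt A r) : Matrix (Fin r) (Fin r) A := M.toBlocks₂₂

theorem frow_mul (M N : Mt A r) :
    (M * N) (Sum.inl ()) = Matrix.vecMul (M (Sum.inl ())) N := by
  ext j
  simp [Matrix.mul_apply, Matrix.vecMul, dotProduct]

theorem F1_mul {M N : Mt A r} (hM : F1 M) (hN : F1 N) : F1 (M * N) := by
  unfold F1 at *
  rw [frow_mul, hM, ← frow_mul, one_mul, hN]

theorem F1_of_same {M N : Mt A r} (h : M (Sum.inl ()) = N (Sum.inl ())) (hN : IsUnit N.det) :
    F1 (M * N⁻¹) := by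
  unfold F1
  rw [frow_mul, h, ← frow_mul, Matrix.mul_nonsing_inv _ hN]

theorem F1_inv {M : Mt A r} (h : F1 M) (hM : IsUnit M.det) : F1 M⁻¹ := by
  have := F1_of_same (M := 1) (N := M) (by rw [F1] at h; exact h.symm) hM
  rwa [one_mul] at this

theorem F1_12 {M : Mt A r} (h : F1 M) : M.toBlocks₁₂ = 0 := by
  ext i j
  have := congrFun h (Sum.inr j)
  simpa [Matrix.toBlocks₁₂] using this

theorem F1_11 {M : Mt A r} (h : F1 M) : M.toBlocks₁₁ = 1 := by
  ext i j
  have := congrFun h (Sum.inl ())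
  simpa [Matrix.toBlocks₁₁] using this

theorem rho_mul (M : Mt A r) {N : Mt A r} (hN : F1 N) : rho (M * N) = rho M * rho N := by
  have h12 := F1_12 hN
  have e : (M * N).toBlocks₂₂ = M.toBlocks₂₁ * N.toBlocks₁₂ + M.toBlocks₂₂ * N.toBlocks₂₂ := by
    conv_lhs => rw [← Matrix.fromBlocks_toBlocks M, ← Matrix.fromBlocks_toBlocks N,
      Matrix.fromBlocks_multiply]
    rw [Matrix.toBlocks_fromBlocks₂₂]
  unfold rho
  rw [e, h12, Matrix.mul_zero, zero_add]

theorem rho_one : rho (1 : Mt A r) = 1 := by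
  unfold rho
  rw [← Matrix.fromBlocks_one, Matrix.toBlocks_fromBlocks₂₂]

omit [CommRing A] [CommRing B] in
theorem rho_map (M : Mt A r) (f : A → B) : (rho M).map f = rho (M.map f) := rfl

theorem det_rho {M : Mt A r} (h : F1 M) : (rho M).det = M.det := by
  conv_rhs => rw [← Matrix.fromBlocks_toBlocks M, F1_12 h, F1_11 h, Matrix.det_fromBlocks_zero₁₂]
  simp [rho]

theorem map_inv' (φ : A →+* B) {n : Type} [Fintype n] [DecidableEq n] (M : Matrix n n A)
    (h : IsUnit M.det) : (M⁻¹).map φ = (M.map φ)⁻¹ := by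
  symm
  apply Matrix.inv_eq_left_inv
  rw [← Matrix.map_mul, Matrix.nonsing_inv_mul _ h]
  simp

theorem det_map' (φ : A →+* B) {n : Type} [Fintype n] [DecidableEq n] (M : Matrix n n A) :
    (M.map φ).det = φ M.det := (φ.map_det M).symm

theorem F1_map (φ : A →+* B) {M : Mt A r} (h : F1 M) : F1 (M.map φ) := by
  unfold F1 at *
  ext j
  have := congrArg φ (congrFun h j)
  rw [Matrix.map_apply, this]
  rcases j with j | j
  · simp
  · simp

/-- a path of matrices with first row `(1; 0)` gives a path of lower right blocks -/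
theorem hid_of_path (Q : Mt A[X] r) (h1 : F1 Q) (hd : IsUnit Q.det)
    (h0 : Q.map (evalRingHom (0 : A)) = 1) : HId (rho (Q.map (evalRingHom (1 : A)))) := by
  refine ⟨rho Q, ?_, ?_, ?_⟩
  · rw [det_rho h1]; exact hd
  · have : (rho Q).map (eval (0 : A)) = rho (Q.map (evalRingHom (0 : A))) := rfl
    rw [this, h0, rho_one]
  · rfl

theorem vecMul_lowU (a : A) (c y : Fin r → A) :
    Matrix.vecMul (row a c) (lowU y) = row (a - c ⬝ᵥ y) c := by
  ext j
  rcases j with j | j
  · simp [Matrix.vecMul, dotProduct, lowU, row, Matrix.fromBlocks, Fintype.sum_sum_type]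
    ring
  · simp [Matrix.vecMul, dotProduct, lowU, row, Matrix.fromBlocks, Fintype.sum_sum_type,
      Matrix.one_apply]

theorem vecMul_upV (a : A) (c x : Fin r → A) :
    Matrix.vecMul (row a c) (upV x) = row a (fun j => c j - a * x j) := by
  ext j
  rcases j with j | j
  · simp [Matrix.vecMul, dotProduct, upV, row, Matrix.fromBlocks, Fintype.sum_sum_type]
  · simp [Matrix.vecMul, dotProduct, upV, row, Matrix.fromBlocks, Fintype.sum_sum_type,
      Matrix.one_apply]
    ring

theorem row_one_zero : row (1 : A) (0 : Fin r → A) = (1 : Mt A r) (Sum.inl ()) := by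
  ext j
  rcases j with j | j
  · simp [row]
  · simp [row]

theorem det_lowU (y : Fin r → A) : (lowU y).det = 1 := by
  unfold lowU
  rw [Matrix.det_fromBlocks_zero₁₂]; simp

theorem det_upV (x : Fin r → A) : (upV x).det = 1 := by
  unfold upV
  rw [Matrix.det_fromBlocks_zero₂₁]; simp

theorem lowU_zero : lowU (0 : Fin r → A) = 1 := by
  unfold lowU
  rw [← Matrix.fromBlocks_one]
  congr 1
  ext i j
  simp

theorem map_lowU (φ : A →+* B) (y : Fin r → A) : (lowU y).map φ = lowU (mp φ y) := by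
  unfold lowU
  rw [Matrix.fromBlocks_map]
  congr 1
  · simp
  · simp
  · ext i j; simp [mp]
  · simp

theorem map_upV (φ : A →+* B) (x : Fin r → A) : (upV x).map φ = upV (mp φ x) := by
  unfold upV
  rw [Matrix.fromBlocks_map]
  congr 1
  · simp
  · ext i j; simp [mp]
  · simp
  · simp

theorem mp_cons (φ : A →+* B) (a : A) (h : Fin r → A) :
    mp φ (Fin.cons a h : Fin (r + 1) → A) = (Fin.cons (φ a) (mp φ h) : Fin (r + 1) → B) := by
  ext j
  refine Fin.cases ?_ (fun i => ?_) j
  · simp [mp]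
  · simp [mp]

end basic

section core

variable {C C' : Type u} [CommRing C] [CommRing C'] (φ : C →+* C') (s : ℕ) (ω b : C)
  (h : Fin s → C)
  (σ : ∀ (D : Type u) [CommRing D], D → D → (Fin s → D) → D →
    (Fin (s + 1) → D) → Matrix (Unit ⊕ Fin (s + 1)) (Unit ⊕ Fin (s + 1)) D)

theorem core (hσ1 : ∀ (D : Type u) [CommRing D] (w b : D) (h : Fin s → D) (a' : D)
      (z : Fin (s + 1) → D), w * a' + (Fin.cons b h : Fin (s + 1) → D) ⬝ᵥ z = 1 →
      (σ D w b h a' z).det = 1 ∧
      (σ D w b h a' z) (Sum.inl ()) = row w (Fin.cons (b ^ (s + 1).factorial) h))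
    (hσ2 : ∀ (D D' : Type u) [CommRing D] [CommRing D'] (ψ : D →+* D') (w b : D) (h : Fin s → D)
      (a' : D) (z : Fin (s + 1) → D),
      (σ D w b h a' z).map ψ = σ D' (ψ w) (ψ b) (mp ψ h) (ψ a') (mp ψ z))
    (hB0 : StB0.{u}) (hω : IsUnit ω)
    (hum : Um (Fin.cons (φ b) (mp φ h) : Fin (s + 1) → C'))
    (t : Fin (s + 1) → C')
    (ht : mp φ (Fin.cons (b ^ (s + 1).factorial) h : Fin (s + 1) → C) ⬝ᵥ t = φ ω - 1) :
    ∃ (δ : Matrix (Fin (s + 1)) (Fin (s + 1)) C) (k : Matrix (Fin (s + 1)) (Fin (s + 1)) C'),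
      IsUnit δ.det ∧ HId k ∧
      theta (mp φ (Fin.cons (b ^ (s + 1).factorial) h : Fin (s + 1) → C)) t = δ.map φ * k := by
  obtain ⟨z, hz⟩ := hum
  obtain ⟨ωu, hωu⟩ := hω
  set ωi : C := ((ωu⁻¹ : Cˣ) : C) with hωi
  have hωωi : ω * ωi = 1 := by rw [← hωu]; simp [hωi]
  set m := (s + 1).factorial with hm
  set c0 : Fin (s + 1) → C := Fin.cons (b ^ m) h with hc0
  set c : Fin (s + 1) → C' := mp φ c0 with hc
  have hc' : c = (Fin.cons ((φ b) ^ m) (mp φ h) : Fin (s + 1) → C') := by
    rw [hc, hc0, mp_cons, map_pow]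
  -- the matrices over `C`
  set sf : Mt C (s + 1) := σ C ω b h ωi 0 with hsf
  have sf1 := hσ1 C ω b h ωi 0 (by simp [hωωi])
  set k0c : Mt C (s + 1) := σ C 1 b h 1 0 * upV c0 with hk0c
  have s11 := hσ1 C 1 b h 1 0 (by simp)
  set Vf : Mt C (s + 1) := Matrix.fromBlocks (fun _ _ => ω) (fun _ j => c0 j) 0 1 with hVf
  have Vf1 : Vf (Sum.inl ()) = row ω c0 := by
    ext j
    rcases j with j | j
    · simp [Vf, row]
    · simp [Vf, row]
  have Vfdet : Vf.det = ω := by
    rw [hVf, Matrix.det_fromBlocks_zero₂₁]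
    simp
  have sfu : IsUnit sf.det := by rw [sf1.1]; exact isUnit_one
  have k0cdet : k0c.det = 1 := by rw [hk0c, Matrix.det_mul, s11.1, det_upV, one_mul]
  have k0cF : F1 k0c := by
    unfold F1
    rw [hk0c, frow_mul, s11.2, vecMul_upV, ← row_one_zero]
    congr 1
    ext j
    simp [hc0]
  have VsF : F1 (Vf * sf⁻¹) := F1_of_same (Vf1.trans sf1.2.symm) sfu
  -- the matrices over `C'`
  set Si : Mt C' (s + 1) := σ C' (φ ω) (φ b) (mp φ h) 0 z with hSi
  have Si1 := hσ1 C' (φ ω) (φ b) (mp φ h) 0 z (by rw [mul_zero, zero_add, hz])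
  set W1 : Mt C' (s + 1) := lowU t * upV c with hW1
  set K0 : Mt C' (s + 1) := σ C' 1 (φ b) (mp φ h) 0 z * upV c with hK0
  have s10 := hσ1 C' 1 (φ b) (mp φ h) 0 z (by rw [mul_zero, zero_add, hz])
  have K0F : F1 K0 := by
    unfold F1
    rw [hK0, frow_mul, s10.2, vecMul_upV, ← row_one_zero]
    congr 1
    ext j
    rw [hc']
    simp
  have K0u : IsUnit K0.det := by
    rw [hK0, Matrix.det_mul, s10.1, det_upV, one_mul]; exact isUnit_one
  have Siu : IsUnit Si.det := by rw [Si1.1]; exact isUnit_one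
  set B : Mt C' (s + 1) := sf.map φ with hB
  have hB' : B = σ C' (φ ω) (φ b) (mp φ h) (φ ωi) 0 := by
    rw [hB, hsf, hσ2]
    congr 1
    ext j
    simp [mp]
  have Bu : IsUnit B.det := by rw [hB, det_map', sf1.1, map_one]; exact isUnit_one
  have B1 : B (Sum.inl ()) = row (φ ω) c := by
    rw [hB']
    rw [(hσ1 C' (φ ω) (φ b) (mp φ h) (φ ωi) 0 (by simp [← map_mul, hωωi])).2, hc']
  have SiF : Si (Sum.inl ()) = row (φ ω) c := Si1.2.trans (by rw [hc'])
  set A : Mt C' (s + 1) := Vf.map φ with hA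
  set K0' : Mt C' (s + 1) := k0c.map φ with hK0'
  have hK0'' : K0' = σ C' 1 (φ b) (mp φ h) 1 0 * upV c := by
    rw [hK0', hk0c, Matrix.map_mul, hσ2, map_upV]
    congr 1
    simp only [map_one]
    congr 1
    ext j
    simp [mp]
  have K0'u : IsUnit K0'.det := by
    rw [hK0', det_map', k0cdet, map_one]; exact isUnit_one
  have K0'F : F1 K0' := F1_map φ k0cF
  have SWF : F1 (Si * W1) := by
    unfold F1
    rw [frow_mul, SiF, hW1, ← Matrix.vecMul_vecMul, vecMul_lowU, vecMul_upV, ← row_one_zero, ht]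
    congr 1
    · ring
    · ext j
      simp
  -- theta as a lower right block
  have hth : rho (A * W1) = theta c t := by
    unfold rho
    rw [hA, hVf, hW1, lowU, upV, Matrix.fromBlocks_map, Matrix.fromBlocks_multiply,
      Matrix.fromBlocks_multiply, Matrix.toBlocks_fromBlocks₂₂, theta]
    ext i j
    simp [Matrix.mul_apply, Matrix.vecMulVec_apply, add_comm]
  -- factorisation
  have hfac : A * W1 = (A * B⁻¹) * ((B * Si⁻¹) * ((Si * W1 * K0⁻¹) * ((K0 * K0'⁻¹) * K0'))) := by
    rw [Matrix.mul_assoc K0, Matrix.nonsing_inv_mul _ K0'u, Matrix.mul_one,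
      Matrix.mul_assoc (Si * W1), Matrix.nonsing_inv_mul _ K0u, Matrix.mul_one,
      Matrix.mul_assoc B, ← Matrix.mul_assoc Si⁻¹, Matrix.nonsing_inv_mul _ Siu, Matrix.one_mul,
      Matrix.mul_assoc A, ← Matrix.mul_assoc B⁻¹, Matrix.nonsing_inv_mul _ Bu, Matrix.one_mul]
  have F2 : F1 (B * Si⁻¹) := F1_of_same (by rw [B1, SiF]) Siu
  have F3 : F1 (Si * W1 * K0⁻¹) := F1_mul SWF (F1_inv K0F K0u)
  have F4 : F1 (K0 * K0'⁻¹) := F1_mul K0F (F1_inv K0'F K0'u)
  have hprod : theta c t = rho (A * B⁻¹) *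
      ((rho (B * Si⁻¹) * rho (Si * W1 * K0⁻¹) * rho (K0 * K0'⁻¹)) * rho K0') := by
    rw [← hth, hfac, rho_mul _ (F1_mul F2 (F1_mul F3 (F1_mul F4 K0'F))),
      rho_mul _ (F1_mul F3 (F1_mul F4 K0'F)), rho_mul _ (F1_mul F4 K0'F), rho_mul _ K0'F]
    simp only [Matrix.mul_assoc]
  -- paths
  have hXC0 : ∀ x : C', evalRingHom (0 : C') (Polynomial.C x) = x := fun x => by simp
  have hXC1 : ∀ x : C', evalRingHom (1 : C') (Polynomial.C x) = x := fun x => by simp
  have mpC0 : ∀ {n : Type} (v : n → C'), mp (evalRingHom (0 : C')) (mp Polynomial.C v) = v := by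
    intro n v; ext j; simp [mp]
  have mpC1 : ∀ {n : Type} (v : n → C'), mp (evalRingHom (1 : C')) (mp Polynomial.C v) = v := by
    intro n v; ext j; simp [mp]
  have mapC0 : ∀ M : Mt C' (s + 1), (M.map (Polynomial.C : C' →+* C'[X])).map
      (evalRingHom (0 : C')) = M := by
    intro M; ext i j; simp
  have mapC1 : ∀ M : Mt C' (s + 1), (M.map (Polynomial.C : C' →+* C'[X])).map
      (evalRingHom (1 : C')) = M := by
    intro M; ext i j; simp
  have detC : ∀ M : Mt C' (s + 1), IsUnit M.det →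
      IsUnit (M.map (Polynomial.C : C' →+* C'[X])).det := by
    intro M hM; rw [det_map']; exact hM.map _
  have hcC : mp (Polynomial.C : C' →+* C'[X]) c =
      (Fin.cons ((Polynomial.C (φ b)) ^ m) (mp Polynomial.C (mp φ h)) : Fin (s + 1) → C'[X]) := by
    rw [hc', mp_cons, map_pow]
  have hzC : ∀ p : C'[X], (Fin.cons (Polynomial.C (φ b)) (mp Polynomial.C (mp φ h)) :
      Fin (s + 1) → C'[X]) ⬝ᵥ (p • mp (Polynomial.C : C' →+* C'[X]) z) = p := by
    intro p
    rw [← mp_cons, dotProduct_smul]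
    have : mp (Polynomial.C : C' →+* C'[X]) (Fin.cons (φ b) (mp φ h) : Fin (s + 1) → C') ⬝ᵥ
        mp Polynomial.C z = 1 := by
      have := congrArg (Polynomial.C : C' →+* C'[X]) hz
      rw [map_one, dotProduct, map_sum] at this
      rw [← this]
      simp [dotProduct, mp]
    rw [this, smul_eq_mul, mul_one]
  -- second factor
  have H2 : HId (rho (B * Si⁻¹)) := by
    set S : Mt C'[X] (s + 1) := σ C'[X] (Polynomial.C (φ ω)) (Polynomial.C (φ b))
      (mp Polynomial.C (mp φ h)) (X * Polynomial.C (φ ωi))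
      ((1 - X : C'[X]) • mp Polynomial.C z) with hS
    have hS1 := hσ1 C'[X] (Polynomial.C (φ ω)) (Polynomial.C (φ b))
      (mp Polynomial.C (mp φ h)) (X * Polynomial.C (φ ωi))
      ((1 - X : C'[X]) • mp Polynomial.C z) (by
        rw [hzC]
        have : (Polynomial.C (φ ω) : C'[X]) * Polynomial.C (φ ωi) = 1 := by
          rw [← Polynomial.C_mul, ← map_mul, hωωi, map_one, Polynomial.C_1]
        linear_combination (X : C'[X]) * this)
    have key := hid_of_path (S * (Si.map (Polynomial.C : C' →+* C'[X]))⁻¹)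
      (F1_of_same (by
        refine hS1.2.trans ?_
        rw [← hcC]
        ext j
        have := congrFun SiF j
        rw [Matrix.map_apply, this]
        rcases j with j | j
        · simp [row]
        · simp [row, mp]) (detC _ Siu))
      (by
        rw [Matrix.det_mul, hS1.1, one_mul]
        exact (Matrix.isUnit_nonsing_inv_det_iff).2 (detC _ Siu))
      (by
        rw [← map_inv' _ _ Siu, Matrix.map_mul, mapC0, hσ2]
        simp only [hXC0, mpC0, map_mul]
        have : σ C' (φ ω) (φ b) (mp φ h) (evalRingHom (0 : C') X * φ ωi)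
            (mp (evalRingHom (0 : C')) ((1 - X : C'[X]) • mp Polynomial.C z)) = Si := by
          rw [hSi]
          congr 1
          · simp
          · ext j; simp [mp]
        rw [this, Matrix.mul_nonsing_inv _ Siu])
    have e : (S * (Si.map (Polynomial.C : C' →+* C'[X]))⁻¹).map (evalRingHom (1 : C')) =
        B * Si⁻¹ := by
      rw [← map_inv' _ _ Siu, Matrix.map_mul, mapC1, hσ2]
      simp only [hXC1, mpC1, map_mul]
      congr 1
      rw [hB']
      congr 1
      · simp
      · ext j; simp [mp]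
    rwa [e] at key
  -- third factor
  have H3 : HId (rho (Si * W1 * K0⁻¹)) := by
    set S : Mt C'[X] (s + 1) := σ C'[X] (1 + X * Polynomial.C (φ ω - 1)) (Polynomial.C (φ b))
      (mp Polynomial.C (mp φ h)) 0 (mp Polynomial.C z) with hS
    have hS1 := hσ1 C'[X] (1 + X * Polynomial.C (φ ω - 1)) (Polynomial.C (φ b))
      (mp Polynomial.C (mp φ h)) 0 (mp Polynomial.C z) (by
        have := hzC 1
        rw [one_smul] at this
        rw [this, mul_zero, zero_add])
    have hctX : mp (Polynomial.C : C' →+* C'[X]) c ⬝ᵥ ((X : C'[X]) • mp Polynomial.C t) =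
        X * Polynomial.C (φ ω - 1) := by
      rw [dotProduct_smul, smul_eq_mul]
      congr 1
      rw [← ht, dotProduct, dotProduct, map_sum]
      simp [mp]
    have key := hid_of_path (S * (lowU ((X : C'[X]) • mp Polynomial.C t) *
        upV (mp Polynomial.C c)) * (K0.map (Polynomial.C : C' →+* C'[X]))⁻¹)
      (by
        apply F1_mul _ (F1_inv (F1_map _ K0F) (detC _ K0u))
        unfold F1
        rw [frow_mul]
        refine (congrArg (fun v => Matrix.vecMul v (lowU ((X : C'[X]) • mp Polynomial.C t) *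
          upV (mp Polynomial.C c))) hS1.2).trans ?_
        show Matrix.vecMul (row _ _) _ = _
        rw [← hcC, ← Matrix.vecMul_vecMul, vecMul_lowU, vecMul_upV,
          ← row_one_zero, hctX]
        congr 1
        · ring
        · ext j
          simp)
      (by
        rw [Matrix.det_mul, Matrix.det_mul, Matrix.det_mul, hS1.1, det_lowU, det_upV, one_mul,
          one_mul, one_mul]
        exact (Matrix.isUnit_nonsing_inv_det_iff).2 (detC _ K0u))
      (by
        rw [← map_inv' _ _ K0u, Matrix.map_mul, Matrix.map_mul, Matrix.map_mul, mapC0, hσ2,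
          map_lowU, map_upV, mpC0]
        simp only [hXC0, mpC0]
        have e1 : mp (evalRingHom (0 : C')) ((X : C'[X]) • mp Polynomial.C t) = 0 := by
          ext j; simp [mp]
        have e2 : evalRingHom (0 : C') (1 + X * Polynomial.C (φ ω - 1)) = 1 := by simp
        rw [e1, e2, lowU_zero, one_mul, map_zero, ← hK0, Matrix.mul_nonsing_inv _ K0u])
    have e : (S * (lowU ((X : C'[X]) • mp Polynomial.C t) *
        upV (mp Polynomial.C c)) * (K0.map (Polynomial.C : C' →+* C'[X]))⁻¹).map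
        (evalRingHom (1 : C')) = Si * W1 * K0⁻¹ := by
      rw [← map_inv' _ _ K0u, Matrix.map_mul, Matrix.map_mul, Matrix.map_mul, mapC1, hσ2,
          map_lowU, map_upV, mpC1]
      simp only [hXC1, mpC1]
      have e1 : mp (evalRingHom (1 : C')) ((X : C'[X]) • mp Polynomial.C t) = t := by
        ext j; simp [mp]
      have e2 : evalRingHom (1 : C') (1 + X * Polynomial.C (φ ω - 1)) = φ ω := by simp
      rw [e1, e2, map_zero, hSi, hW1]
    rwa [e] at key
  -- fourth factor
  have H4 : HId (rho (K0 * K0'⁻¹)) := by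
    set S : Mt C'[X] (s + 1) := σ C'[X] 1 (Polynomial.C (φ b))
      (mp Polynomial.C (mp φ h)) (1 - X) ((X : C'[X]) • mp Polynomial.C z) with hS
    have hS1 := hσ1 C'[X] 1 (Polynomial.C (φ b))
      (mp Polynomial.C (mp φ h)) (1 - X) ((X : C'[X]) • mp Polynomial.C z) (by
        rw [hzC]; ring)
    have key := hid_of_path (S * upV (mp Polynomial.C c) *
        (K0'.map (Polynomial.C : C' →+* C'[X]))⁻¹)
      (by
        apply F1_mul _ (F1_inv (F1_map _ K0'F) (detC _ K0'u))
        unfold F1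
        rw [frow_mul]
        refine (congrArg (fun v => Matrix.vecMul v (upV (mp Polynomial.C c))) hS1.2).trans ?_
        show Matrix.vecMul (row _ _) _ = _
        rw [← hcC, vecMul_upV, ← row_one_zero]
        congr 1
        ext j
        simp)
      (by
        rw [Matrix.det_mul, Matrix.det_mul, hS1.1, det_upV, one_mul, one_mul]
        exact (Matrix.isUnit_nonsing_inv_det_iff).2 (detC _ K0'u))
      (by
        rw [← map_inv' _ _ K0'u, Matrix.map_mul, Matrix.map_mul, mapC0, hσ2, map_upV, mpC0]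
        simp only [hXC0, mpC0]
        have e1 : mp (evalRingHom (0 : C')) ((X : C'[X]) • mp Polynomial.C z) = 0 := by
          ext j; simp [mp]
        have e2 : evalRingHom (0 : C') (1 - X) = 1 := by simp
        rw [e1, e2, map_one, ← hK0'', Matrix.mul_nonsing_inv _ K0'u])
    have e : (S * upV (mp Polynomial.C c) *
        (K0'.map (Polynomial.C : C' →+* C'[X]))⁻¹).map (evalRingHom (1 : C')) = K0 * K0'⁻¹ := by
      rw [← map_inv' _ _ K0'u, Matrix.map_mul, Matrix.map_mul, mapC1, hσ2, map_upV, mpC1]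
      simp only [hXC1, mpC1]
      have e1 : mp (evalRingHom (1 : C')) ((X : C'[X]) • mp Polynomial.C z) = z := by
        ext j; simp [mp]
      have e2 : evalRingHom (1 : C') (1 - X) = 0 := by simp
      rw [e1, e2, map_one, hK0]
    rwa [e] at key
  -- conclusion
  have hb := hB0 C' C' (RingHom.id C') (Fin (s + 1))
  have Hk := hb.1 _ _ (hb.1 _ _ H2 H3) H4
  have hδ2u : IsUnit (rho K0').det := by rw [det_rho K0'F]; exact K0'u
  refine ⟨rho (Vf * sf⁻¹) * rho k0c, (rho K0')⁻¹ *
    (rho (B * Si⁻¹) * rho (Si * W1 * K0⁻¹) * rho (K0 * K0'⁻¹)) * rho K0', ?_,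
    (hb.2.2.2.1 _ _ Hk hδ2u).2, ?_⟩
  · rw [Matrix.det_mul, det_rho VsF, det_rho k0cF, k0cdet, mul_one, Matrix.det_mul, Vfdet]
    refine IsUnit.mul ⟨ωu, hωu⟩ ?_
    exact (Matrix.isUnit_nonsing_inv_det_iff).2 sfu
  · have e1 : (rho (Vf * sf⁻¹)).map φ = rho (A * B⁻¹) := by
      rw [rho_map, Matrix.map_mul, map_inv' _ _ sfu]
    have e2 : (rho k0c).map φ = rho K0' := rho_map _ _
    rw [Matrix.map_mul, e1, e2, hprod]
    simp only [Matrix.mul_assoc]
    rw [← Matrix.mul_assoc (rho K0') (rho K0')⁻¹, Matrix.mul_nonsing_inv _ hδ2u, Matrix.one_mul]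

end core

theorem hB5 (hB0 : StB0.{u}) (hB3 : StB3.{u}) (hC5 : StC5.{u}) : StB5.{u} := by
  intro C C' _ _ φ s ω b h g c hω hg hum hcg t ht
  obtain ⟨σ, hσ1, hσ2⟩ := hC5 s
  set c0 : Fin (s + 1) → C := Fin.cons (b ^ (s + 1).factorial) h with hc0
  set g' : Matrix (Fin (s + 1)) (Fin (s + 1)) C' := g.map φ with hg'
  have hg'u : IsUnit g'.det := by rw [hg', det_map']; exact hg.map φ
  have hcg' : mp φ c = Matrix.vecMul (mp φ c0) g' := by
    ext j
    rw [hcg]
    simp [mp, Matrix.vecMul, dotProduct, hg', map_sum]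
  set t0 : Fin (s + 1) → C' := Matrix.mulVec g' t with ht0
  have ht0' : Matrix.mulVec g'⁻¹ t0 = t := by
    rw [ht0, Matrix.mulVec_mulVec, Matrix.nonsing_inv_mul _ hg'u, Matrix.one_mulVec]
  have hct : mp φ c0 ⬝ᵥ t0 = φ ω - 1 := by
    rw [ht0, Matrix.dotProduct_mulVec, ← hcg', ht]
  obtain ⟨δ, k, hδ, hk, hth⟩ := core φ s ω b h σ hσ1 hσ2 hB0 hω hum t0 hct
  have hb := hB0 C' C' (RingHom.id C') (Fin (s + 1))
  refine ⟨g⁻¹ * δ * g, g'⁻¹ * k * g', ?_, (hb.2.2.2.1 _ _ hk hg'u).2, ?_⟩
  · rw [Matrix.det_mul, Matrix.det_mul]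
    exact (((Matrix.isUnit_nonsing_inv_det_iff).2 hg).mul hδ).mul hg
  · have h3 := (hB3 C' (s + 1) (mp φ c0) t0 t0 (φ ω) (hω.map φ) hct).2.2 g' hg'u
    rw [ht0', ← hcg'] at h3
    rw [h3, hth, Matrix.map_mul, Matrix.map_mul, map_inv' _ _ hg]
    simp only [Matrix.mul_assoc]
    rw [← Matrix.mul_assoc g' g'⁻¹, Matrix.mul_nonsing_inv _ hg'u, Matrix.one_mul]

end Pool.Agent.Helper58.GU
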